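import Pool.Agent.Helper76_Leo3.Basic

/-!
# Leo3, module LFD: cubic field, quadratic field and sextic field of a form (helper76)
-/

set_option autoImplicit false

open Module Polynomial

namespace Pool.Agent.Leo3.H76

open Pool.Agent.Leo3

/-- The quadratic cofactor. -/
noncomputable def cof (E : Type) [Field E] (a b c : ℤ) (x : E) : E[X] :=
  C (a : E) * X ^ 2 + C (a * x + 3 * b : E) * X + C (a * x ^ 2 + 3 * b * x + 3 * c : E)

theorem gp_fac {E : Type} [Field E] {a b c d : ℤ} {x : E}
    (hx : a * x ^ 3 + 3 * b * x ^ 2 + 3 * c * x + d = 0) :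
    gp E a b c d = (X - C x) * cof E a b c x := by
  have hd : (d : E) = -(a * x ^ 3 + 3 * b * x ^ 2 + 3 * c * x) := by linear_combination hx
  unfold gp cof
  rw [hd]
  simp only [C_add, C_mul, C_neg, C_pow]
  ring

theorem cof_eval {E : Type} [Field E] (a b c : ℤ) (x y : E) :
    (cof E a b c x).eval y = a * y ^ 2 + (a * x + 3 * b) * y + (a * x ^ 2 + 3 * b * x + 3 * c) := by
  unfold cof
  simp

theorem cof_deg {E : Type} [Field E] {a b c : ℤ} (ha : (a : E) ≠ 0) (x : E) :
    (cof E a b c x).natDegree = 2 := by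
  unfold cof
  compute_degree!

/-- The discriminant relation with `m`. -/
theorem disc_m {E : Type} [Field E] {a b c d : ℤ} {m : ℕ} (hM4 : hM a b c d = 4 * m) {x : E}
    (hx : a * x ^ 3 + 3 * b * x ^ 2 + 3 * c * x + d = 0) :
    (3 * a * x ^ 2 + 6 * b * x + 3 * c) ^ 2 *
      ((a * x + 3 * b) ^ 2 - 4 * a * (a * x ^ 2 + 3 * b * x + 3 * c)) = 108 * (m : E) := by
  rw [disc_id (a : E) b c d x hx]
  have h1 : ((hM a b c d : ℤ) : E) = ((4 * m : ℤ) : E) := by rw [hM4]
  unfold hM at h1
  push_cast at h1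
  rw [h1]
  ring

/-- A cubic field with this form is not Galois. -/
theorem not_gal {K : Type} [Field K] [NumberField K] {a b c d : ℤ} {m : ℕ} (h24 : m % 24 = 7)
    (hirr : Irr a b c d) (hM4 : hM a b c d = 4 * m) (ξ : K) (h3 : finrank ℚ K = 3)
    (hx : a * ξ ^ 3 + 3 * b * ξ ^ 2 + 3 * c * ξ + d = 0) : ¬ IsGalois ℚ K := by
  intro hG
  have ha : (a : K) ≠ 0 := by exact_mod_cast irr_ne hirr
  have haQ : (a : ℚ) ≠ 0 := by exact_mod_cast irr_ne hirr
  have hsp : ((minpoly ℚ ξ).map (algebraMap ℚ K)).Splits := Normal.splits inferInstance ξ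
  have h1 : aeval ξ (gp ℚ a b c d) = 0 := by
    rw [aeval_def, ← eval_map, gp_map, gp_eval, hx]
  have h2 := minpoly.eq_of_irreducible (gp_irr hirr) h1
  have h3' : (gp K a b c d).Splits := by
    rw [← gp_map (algebraMap ℚ K) a b c d]
    have h4 : gp ℚ a b c d = minpoly ℚ ξ * C (gp ℚ a b c d).leadingCoeff := by
      rw [← h2, mul_assoc, ← C_mul, inv_mul_cancel₀, C_1, mul_one]
      rw [gp_lead haQ]
      exact haQ
    rw [h4, Polynomial.map_mul]
    refine Splits.mul hsp ?_
    rw [Polynomial.map_C]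
    exact Splits.C _
  have h5 : gp K a b c d ≠ 0 := by
    intro h0
    have := gp_deg (E := K) (b := b) (c := c) (d := d) ha
    rw [h0] at this
    simp at this
  have h6 : (cof K a b c ξ).Splits := by
    refine Splits.of_dvd h3' h5 ?_
    rw [gp_fac hx]
    exact dvd_mul_left _ _
  obtain ⟨y, hy⟩ := h6.exists_eval_eq_zero (by
    intro h0
    have h7 := natDegree_eq_of_degree_eq_some (n := 0) h0
    rw [cof_deg ha] at h7
    omega)
  rw [cof_eval] at hy
  have h8 : ((3 * a * ξ ^ 2 + 6 * b * ξ + 3 * c) * (2 * a * y + (a * ξ + 3 * b))) ^ 2 =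
      (((108 * m : ℕ) : ℚ) : K) := by
    push_cast
    rw [← disc_m hM4 hx]
    linear_combination (3 * a * ξ ^ 2 + 6 * b * ξ + 3 * c) ^ 2 * 4 * a * hy
  obtain ⟨t, ht⟩ := sq_cubic h3 h8
  apply nsq h24 (t / 6)
  push_cast at ht
  rw [div_pow, ht]
  ring

/-- Degrees and Galois property. -/
theorem core (K F L : Type) [Field K] [NumberField K] [Field F] [NumberField F]
    [Field L] [NumberField L] [Algebra K L] [Algebra F L] {a b c d : ℤ} {m : ℕ}
    (h24 : m % 24 = 7) (hirr : Irr a b c d) (hM4 : hM a b c d = 4 * m) (ξ : K) (r : F)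
    (hK : finrank ℚ K = 3) (hF : finrank ℚ F = 2) (hL : finrank ℚ L = 6)
    (hx : a * ξ ^ 3 + 3 * b * ξ ^ 2 + 3 * c * ξ + d = 0) (hr : r ^ 2 = 3 * (m : F)) :
    finrank K L = 2 ∧ finrank F L = 3 ∧ IsGalois F L := by
  have hm : m ≠ 0 := by omega
  have ha : (a : L) ≠ 0 := by exact_mod_cast irr_ne hirr
  have e1 := finrank_mul_finrank ℚ K L
  have e2 := finrank_mul_finrank ℚ F L
  rw [hK, hL] at e1
  rw [hF, hL] at e2
  have hFL : finrank F L = 3 := by omega
  refine ⟨by omega, hFL, ?_⟩
  -- the roots in `L`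
  set x : L := algebraMap K L ξ with hxdef
  set s0 : L := algebraMap F L r with hs0
  have hxL : a * x ^ 3 + 3 * b * x ^ 2 + 3 * c * x + d = 0 := by
    have := congrArg (algebraMap K L) hx
    simp only [map_add, map_mul, map_pow, map_intCast, map_ofNat, map_zero] at this
    exact this
  have hrL : s0 ^ 2 = 3 * (m : L) := by
    have := congrArg (algebraMap F L) hr
    simp only [map_mul, map_pow, map_ofNat, map_natCast] at this
    exact this
  have hdm := disc_m hM4 hxL
  set G : L := 3 * a * x ^ 2 + 6 * b * x + 3 * c with hG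
  have hm0 : (m : L) ≠ 0 := by exact_mod_cast hm
  have hG0 : G ≠ 0 := by
    intro h0
    rw [h0] at hdm
    apply hm0
    have h108 : (108 : L) ≠ 0 := by norm_num
    have : (108 : L) * m = 0 := by rw [← hdm]; ring
    exact (mul_eq_zero.1 this).resolve_left h108
  set s : L := 6 * s0 / G with hs
  have hs2 : s ^ 2 = (a * x + 3 * b) ^ 2 - 4 * a * (a * x ^ 2 + 3 * b * x + 3 * c) := by
    have h1 : G ^ 2 * s ^ 2 = 108 * m := by
      rw [hs, div_pow, mul_div_cancel₀ _ (pow_ne_zero 2 hG0), mul_pow, hrL]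
      ring
    exact mul_left_cancel₀ (pow_ne_zero 2 hG0) (h1.trans hdm.symm)
  have hcof : cof L a b c x = C (a : L) * (X - C ((-(a * x + 3 * b) + s) / (2 * a))) *
      (X - C ((-(a * x + 3 * b) - s) / (2 * a))) := by
    have h2a : (2 : L) * a ≠ 0 := mul_ne_zero two_ne_zero ha
    have e3 : C (a : L) * (X - C ((-(a * x + 3 * b) + s) / (2 * a))) *
        (X - C ((-(a * x + 3 * b) - s) / (2 * a))) =
        C (a : L) * X ^ 2 - C (a * ((-(a * x + 3 * b) + s) / (2 * a) +
          (-(a * x + 3 * b) - s) / (2 * a))) * X +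
          C (a * (((-(a * x + 3 * b) + s) / (2 * a)) * ((-(a * x + 3 * b) - s) / (2 * a)))) := by
      simp only [C_mul, C_add]
      ring
    have e4 : (a : L) * ((-(a * x + 3 * b) + s) / (2 * a) +
          (-(a * x + 3 * b) - s) / (2 * a)) = -(a * x + 3 * b) := by
      field_simp
      ring
    have e5 : (a : L) * (((-(a * x + 3 * b) + s) / (2 * a)) *
        ((-(a * x + 3 * b) - s) / (2 * a))) = a * x ^ 2 + 3 * b * x + 3 * c := by
      have e6 : ((-(a * x + 3 * b) + s) / (2 * a)) * ((-(a * x + 3 * b) - s) / (2 * a)) =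
          ((a * x + 3 * b) ^ 2 - s ^ 2) / (4 * a ^ 2) := by
        field_simp
        ring
      rw [e6, hs2]
      field_simp
      ring
    rw [e3, e4, e5]
    unfold cof
    rw [C_neg]
    ring
  have hspl : ((gp F a b c d).map (algebraMap F L)).Splits := by
    rw [gp_map, gp_fac hxL, hcof]
    exact ((Splits.X_sub_C _)).mul (((Splits.C _).mul (Splits.X_sub_C _)).mul (Splits.X_sub_C _))
  -- `L = F[x]`
  have htop : Algebra.adjoin F ({x} : Set L) = ⊤ := by
    have : IsSimpleOrder (Subalgebra F L) :=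
      Subalgebra.isSimpleOrder_of_finrank_prime F L (by rw [hFL]; exact Nat.prime_three)
    rcases eq_bot_or_eq_top (Algebra.adjoin F ({x} : Set L)) with h | h
    · exfalso
      have hxm : x ∈ (⊥ : Subalgebra F L) := by
        rw [← h]
        exact Algebra.subset_adjoin rfl
      obtain ⟨y, hy⟩ := Algebra.mem_bot.1 hxm
      have hyF : a * y ^ 3 + 3 * b * y ^ 2 + 3 * c * y + d = 0 := by
        apply (algebraMap F L).injective
        simp only [map_add, map_mul, map_pow, map_intCast, map_ofNat, map_zero, hy]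
        exact hxL
      obtain ⟨h1, h2⟩ := root_deg hirr hyF
      have h3 := minpoly.degree_dvd h1
      rw [h2, hF] at h3
      omega
    · exact h
  have hroot : x ∈ (gp F a b c d).rootSet L := by
    rw [mem_rootSet]
    refine ⟨?_, ?_⟩
    · intro h0
      have haF : (a : F) ≠ 0 := by exact_mod_cast irr_ne hirr
      have := gp_deg (E := F) (b := b) (c := c) (d := d) haF
      rw [h0] at this
      simp at this
    · rw [aeval_def, ← eval_map, gp_map, gp_eval, hxL]
  have : IsSplittingField F L (gp F a b c d) := by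
    refine ⟨hspl, ?_⟩
    rw [eq_top_iff, ← htop]
    exact Algebra.adjoin_mono (Set.singleton_subset_iff.2 hroot)
  have : Normal F L := Normal.of_isSplittingField (gp F a b c d)
  exact ⟨⟩

/-- `LFD`. -/
theorem lfd : LfdStmt := by
  intro a b c d m hsf h24 hirr hM4
  have hm : m ≠ 0 := by omega
  have haC : (a : ℂ) ≠ 0 := by exact_mod_cast irr_ne hirr
  obtain ⟨x0, hx0⟩ := IsAlgClosed.exists_root (gp ℂ a b c d) (by
    intro h0
    have h7 := natDegree_eq_of_degree_eq_some (n := 0) h0
    rw [gp_deg haC] at h7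
    omega)
  rw [IsRoot.def, gp_eval] at hx0
  obtain ⟨r0, hr0⟩ := IsAlgClosed.exists_pow_nat_eq (3 * (m : ℂ)) (n := 2) two_pos
  obtain ⟨hxi, hxd⟩ := root_deg hirr hx0
  have hri : IsIntegral ℚ r0 := by
    refine ⟨X ^ 2 - C (3 * (m : ℚ)), monic_X_pow_sub_C _ two_ne_zero, ?_⟩
    simp [hr0]
  set K : IntermediateField ℚ ℂ := IntermediateField.adjoin ℚ {x0} with hKdef
  set F : IntermediateField ℚ ℂ := IntermediateField.adjoin ℚ {r0} with hFdef
  have hfK : finrank ℚ K = 3 := by rw [hKdef, IntermediateField.adjoin.finrank hxi, hxd]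
  have hfF : finrank ℚ F = 2 := by
    rw [hFdef, IntermediateField.adjoin.finrank hri]
    have h1 : minpoly ℚ r0 ∣ X ^ 2 - C (3 * (m : ℚ)) := by
      apply minpoly.dvd
      simp [hr0]
    have h5 : (X ^ 2 - C (3 * (m : ℚ)) : ℚ[X]).natDegree = 2 := natDegree_X_pow_sub_C
    have h4 : (minpoly ℚ r0).natDegree ≤ 2 := by
      rw [← h5]
      apply natDegree_le_of_dvd h1
      intro h6
      rw [h6] at h5
      simp at h5
    have h6 : (minpoly ℚ r0).natDegree ≠ 1 := by
      intro h7
      obtain ⟨t, ht⟩ := (minpoly.natDegree_eq_one_iff).1 h7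
      apply nsq h24 t
      apply (algebraMap ℚ ℂ).injective
      rw [map_pow, ht, hr0]
      simp
    have h8 : 0 < (minpoly ℚ r0).natDegree := minpoly.natDegree_pos hri
    omega
  have hdK : FiniteDimensional ℚ K := IntermediateField.adjoin.finiteDimensional hxi
  have hdF : FiniteDimensional ℚ F := IntermediateField.adjoin.finiteDimensional hri
  set L : IntermediateField ℚ ℂ := K ⊔ F with hLdef
  have hfL : finrank ℚ L = 6 := by
    have h1 : K.LinearDisjoint F := IntermediateField.LinearDisjoint.of_finrank_coprime (by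
      rw [hfK, hfF]; norm_num)
    rw [hLdef, h1.finrank_sup, hfK, hfF]
  have hdL : FiniteDimensional ℚ L := IntermediateField.finiteDimensional_sup K F
  have hNK : NumberField K := ⟨⟩
  have hNF : NumberField F := ⟨⟩
  have hNL : NumberField L := ⟨⟩
  let iK : Algebra K L := (IntermediateField.inclusion (le_sup_left : K ≤ L)).toRingHom.toAlgebra
  let iF : Algebra F L := (IntermediateField.inclusion (le_sup_right : F ≤ L)).toRingHom.toAlgebra
  let ξ : K := ⟨x0, IntermediateField.mem_adjoin_simple_self ℚ x0⟩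
  let r : F := ⟨r0, IntermediateField.mem_adjoin_simple_self ℚ r0⟩
  have hξ : a * ξ ^ 3 + 3 * b * ξ ^ 2 + 3 * c * ξ + d = 0 := by
    apply Subtype.ext
    push_cast
    exact hx0
  have hr : r ^ 2 = 3 * (m : F) := by
    apply Subtype.ext
    push_cast
    exact hr0
  obtain ⟨h1, h2, h3⟩ := core K F L h24 hirr hM4 ξ r hfK hfF hfL hξ hr
  exact ⟨K, F, L, inferInstance, hNK, inferInstance, hNF, inferInstance, hNL, iK, iF, ξ, r,
    hfK, hξ, not_gal h24 hirr hM4 ξ hfK hξ, hfF, hr, h1, h2, h3⟩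

end Pool.Agent.Leo3.H76
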