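import Pool.Agent.Helper76_Leo3.Basic

/-!
# Leo3, module TRL: the cubic field is totally real (helper76)
-/

set_option autoImplicit false

open Module Polynomial NumberField

namespace Pool.Agent.Leo3.H76

open Pool.Agent.Leo3

/-- A real cubic with a non-real root has negative discriminant. -/
theorem disc_neg {a b c d X y : ℝ} (hy : y ≠ 0)
    (h1 : a * (X ^ 3 - 3 * X * y ^ 2) + 3 * b * (X ^ 2 - y ^ 2) + 3 * c * X + d = 0)
    (h2 : a * (3 * X ^ 2 * y - y ^ 3) + 3 * b * (2 * X * y) + 3 * c * y = 0) :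
    4 * (b ^ 2 - a * c) * (c ^ 2 - b * d) - (b * c - a * d) ^ 2 ≤ 0 := by
  have h3 : a * (3 * X ^ 2 - y ^ 2) + 6 * b * X + 3 * c = 0 := by
    apply mul_left_cancel₀ hy
    linear_combination h2
  have hc : c = -(a * (3 * X ^ 2 - y ^ 2) + 6 * b * X) / 3 := by linear_combination h3 / 3
  have hd : d = -(a * (X ^ 3 - 3 * X * y ^ 2) + 3 * b * (X ^ 2 - y ^ 2) + 3 * c * X) := by
    linear_combination h1
  have key : 27 * (4 * (b ^ 2 - a * c) * (c ^ 2 - b * d) - (b * c - a * d) ^ 2) =
      -(2 * y * ((3 * a * X + 3 * b) ^ 2 + a ^ 2 * y ^ 2)) ^ 2 := by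
    rw [hd, hc]
    ring
  nlinarith [sq_nonneg (2 * y * ((3 * a * X + 3 * b) ^ 2 + a ^ 2 * y ^ 2))]

theorem re_im_zero {p q : ℝ} (h : (p : ℂ) + (q : ℂ) * Complex.I = 0) : p = 0 ∧ q = 0 := by
  have h1 := congrArg Complex.re h
  have h2 := congrArg Complex.im h
  simp only [Complex.add_re, Complex.add_im, Complex.ofReal_re, Complex.ofReal_im,
    Complex.mul_re, Complex.mul_im, Complex.I_re, Complex.I_im, Complex.zero_re,
    Complex.zero_im] at h1 h2
  exact ⟨by linarith, by linarith⟩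

/-- `TRL`. -/
theorem trl : TrlStmt := by
  intro K _ _ ξ a b c d m hm h3 hirr hM4 hx
  refine ⟨fun v => ?_⟩
  rw [InfinitePlace.isReal_iff, ComplexEmbedding.isReal_iff]
  set φ := v.embedding with hφ
  obtain ⟨hint, hdeg⟩ := root_deg hirr hx
  have htop : IntermediateField.adjoin ℚ {ξ} = ⊤ := by
    apply IntermediateField.eq_of_le_of_finrank_eq le_top
    rw [IntermediateField.adjoin.finrank hint, hdeg, IntermediateField.finrank_top', h3]
  -- the image of `ξ` is real
  have hz : (a : ℂ) * (φ ξ) ^ 3 + 3 * b * (φ ξ) ^ 2 + 3 * c * φ ξ + d = 0 := by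
    have := congrArg φ hx
    simp only [map_add, map_mul, map_pow, map_intCast, map_ofNat, map_zero] at this
    exact this
  have him : (φ ξ).im = 0 := by
    by_contra hne
    set z := φ ξ with hzdef
    have hzz : z = (z.re : ℂ) + (z.im : ℂ) * Complex.I := (Complex.re_add_im z).symm
    have e1 : (a : ℂ) * z ^ 3 + 3 * b * z ^ 2 + 3 * c * z + d =
        (((a : ℝ) * (z.re ^ 3 - 3 * z.re * z.im ^ 2) + 3 * b * (z.re ^ 2 - z.im ^ 2) +
          3 * c * z.re + d : ℝ) : ℂ) +
        (((a : ℝ) * (3 * z.re ^ 2 * z.im - z.im ^ 3) + 3 * b * (2 * z.re * z.im) +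
          3 * c * z.im : ℝ) : ℂ) * Complex.I := by
      conv_lhs => rw [hzz]
      push_cast
      linear_combination ((a : ℂ) * (3 * z.re * z.im ^ 2 + z.im ^ 3 * Complex.I) +
        3 * b * z.im ^ 2) * Complex.I_sq
    rw [e1] at hz
    obtain ⟨h1, h2⟩ := re_im_zero hz
    have h4 := disc_neg hne h1 h2
    have h5 : ((hM a b c d : ℤ) : ℝ) = ((4 * m : ℤ) : ℝ) := by rw [hM4]
    unfold hM at h5
    push_cast at h5
    rw [h5] at h4
    have h6 : (0 : ℝ) < m := by exact_mod_cast hm
    linarith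
  -- equality of embeddings
  have hK : ∀ x : K, ComplexEmbedding.conjugate φ x = φ x := by
    intro x
    have hx' : x ∈ IntermediateField.adjoin ℚ {ξ} := by rw [htop]; trivial
    induction hx' using IntermediateField.adjoin_induction with
    | mem y hy =>
      rw [Set.mem_singleton_iff.1 hy, ComplexEmbedding.conjugate_coe_eq]
      exact Complex.conj_eq_iff_im.2 him
    | algebraMap q => simp
    | add y z _ _ h1 h2 => rw [map_add, map_add, h1, h2]
    | inv y _ h1 => rw [map_inv₀, map_inv₀, h1]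
    | mul y z _ _ h1 h2 => rw [map_mul, map_mul, h1, h2]
  exact RingHom.ext hK

end Pool.Agent.Leo3.H76
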