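import Pool.Agent.Helper76_Leo3.Basic

/-!
# Leo3, module UNR: the sextic field is unramified outside 6 over the quadratic field (helper76)
-/

set_option autoImplicit false

open Module Polynomial NumberField

namespace Pool.Agent.Leo3.H76

open Pool.Agent.Leo3

/-- Vieta for a cubic with three distinct roots. -/
theorem vieta {E : Type} [Field E] {a b c d x y z : E} (hxy : x ≠ y) (hyz : y ≠ z) (hzx : z ≠ x)
    (hx : a * x ^ 3 + 3 * b * x ^ 2 + 3 * c * x + d = 0)
    (hy : a * y ^ 3 + 3 * b * y ^ 2 + 3 * c * y + d = 0)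
    (hz : a * z ^ 3 + 3 * b * z ^ 2 + 3 * c * z + d = 0) :
    a * (x + y + z) = -(3 * b) ∧ a * (x * y + y * z + z * x) = 3 * c := by
  have h1 : a * (x ^ 2 + x * y + y ^ 2) + 3 * b * (x + y) + 3 * c = 0 := by
    apply mul_left_cancel₀ (sub_ne_zero.2 hxy)
    linear_combination hx - hy
  have h2 : a * (y ^ 2 + y * z + z ^ 2) + 3 * b * (y + z) + 3 * c = 0 := by
    apply mul_left_cancel₀ (sub_ne_zero.2 hyz)
    linear_combination hy - hz
  have h3 : a * (x + y + z) + 3 * b = 0 := by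
    apply mul_left_cancel₀ (sub_ne_zero.2 hzx)
    linear_combination h2 - h1
  refine ⟨by linear_combination h3, ?_⟩
  linear_combination h3 * (x + y) - h1

/-- The arithmetic end. -/
theorem int_end {a b c d p : ℤ} {m : ℕ} (hp : Prime p) (h2 : ¬ p ∣ 2) (hsf : Squarefree m)
    (hM4 : hM a b c d = 4 * m) (h1 : p ∣ b ^ 2 - a * c) (h3 : p ∣ c ^ 2 - b * d)
    (h4 : p ∣ b * c - a * d) : False := by
  obtain ⟨u, hu⟩ := h1
  obtain ⟨v, hv⟩ := h3
  obtain ⟨w, hw⟩ := h4
  have h5 : p * p ∣ 4 * (m : ℤ) := by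
    rw [← hM4]
    unfold hM
    rw [hu, hv, hw]
    exact ⟨4 * u * v - w ^ 2, by ring⟩
  have hco : IsCoprime (p * p) (4 : ℤ) := by
    have h6 : IsCoprime p 2 := (Prime.coprime_iff_not_dvd hp).2 h2
    have h7 : IsCoprime p 4 := by
      have := h6.mul_right h6
      norm_num at this
      exact this
    exact h7.mul_left h7
  have h8 : p * p ∣ (m : ℤ) := hco.dvd_of_dvd_mul_left h5
  have h9 : p.natAbs * p.natAbs ∣ m := by
    have := Int.natAbs_dvd_natAbs.2 h8
    rwa [Int.natAbs_mul, Int.natAbs_natCast] at this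
  have h10 := hsf _ h9
  exact hp.not_isUnit (Int.isUnit_iff_natAbs_eq.2 (Nat.isUnit_iff.1 h10))

theorem integral_cubic {E : Type} [Field E] {p q r : ℤ} {x : E}
    (h : x ^ 3 + p * x ^ 2 + q * x + r = 0) : IsIntegral ℤ x := by
  refine ⟨X ^ 3 + C p * X ^ 2 + C q * X + C r, by monicity!, ?_⟩
  simp only [eval₂_add, eval₂_mul, eval₂_pow, eval₂_X, eval₂_C]
  simpa using h

/-- Congruences for conjugates that are equal modulo a prime. -/
theorem cong {R : Type} [CommRing R] (P : Ideal R) (hP : P.IsPrime) (h3 : (3 : R) ∉ P)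
    {x y z b e : R} (h1 : y - x ∈ P) (h2 : z - y ∈ P) (hs : x + y + z = -(3 * b))
    (hp : x * y + y * z + z * x = 3 * e) : x + b ∈ P ∧ b ^ 2 - e ∈ P := by
  have h4 : x + b ∈ P := by
    have h5 : 3 * (x + b) ∈ P := by
      have : 3 * (x + b) = -(2 * (y - x)) - (z - y) := by linear_combination hs
      rw [this]
      exact P.sub_mem (P.neg_mem (P.mul_mem_left _ h1)) h2
    exact (hP.mem_or_mem h5).resolve_left h3
  refine ⟨h4, ?_⟩
  have h5 : x ^ 2 - e ∈ P := by
    have h6 : 3 * (x ^ 2 - e) ∈ P := by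
      have : 3 * (x ^ 2 - e) = -(3 * x + z) * (y - x) + -(2 * x) * (z - y) := by
        linear_combination hp
      rw [this]
      exact P.add_mem (P.mul_mem_left _ h1) (P.mul_mem_left _ h2)
    exact (hP.mem_or_mem h6).resolve_left h3
  have h7 : b ^ 2 - e = (b - x) * (x + b) + (x ^ 2 - e) := by ring
  rw [h7]
  exact P.add_mem (P.mul_mem_left _ h4) h5

/-- `UNR`. -/
theorem unr : UnrStmt := by
  intro F L _ _ _ _ _ _ a b c d m ξ h2 h3 hsf h24 hirr hM4 hx P hP hP0 h6
  have hm : m ≠ 0 := by omega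
  have hcard : Nat.card (L ≃ₐ[F] L) = 3 := by rw [IsGalois.card_aut_eq_finrank, h3]
  rw [← Ideal.ramificationIdx_eq_one_iff,
    ← Ideal.ramificationIdxIn_eq_ramificationIdx (P.under (𝓞 F)) P (L ≃ₐ[F] L),
    ← Ideal.card_inertia_eq_ramificationIdxIn (G := L ≃ₐ[F] L) (P.under (𝓞 F)) P]
  by_contra hne
  have htop : P.inertia (L ≃ₐ[F] L) = ⊤ := by
    apply Subgroup.eq_top_of_card_eq
    have h4 := Subgroup.card_subgroup_dvd_card (P.inertia (L ≃ₐ[F] L))
    rw [hcard] at h4
    rw [hcard]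
    exact ((Nat.dvd_prime Nat.prime_three).1 h4).resolve_left hne
  have hin : ∀ (σ : L ≃ₐ[F] L) (y : 𝓞 L), σ • y - y ∈ P := by
    intro σ y
    have : σ ∈ P.inertia (L ≃ₐ[F] L) := by rw [htop]; trivial
    exact this y
  -- a generator
  have hd : d ≠ 0 := by
    intro h0
    have := (hirr 0 1 (by rw [h0]; ring)).2
    exact absurd this one_ne_zero
  have ha : a ≠ 0 := irr_ne hirr
  have hdL : (d : L) ≠ 0 := by exact_mod_cast hd
  have hξ0 : ξ ≠ 0 := by
    rintro rfl
    apply hdL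
    linear_combination hx
  have hξF : ∀ y : F, algebraMap F L y ≠ ξ := by
    intro y hy
    have hyF : a * y ^ 3 + 3 * b * y ^ 2 + 3 * c * y + d = 0 := by
      apply (algebraMap F L).injective
      simp only [map_add, map_mul, map_pow, map_intCast, map_ofNat, map_zero, hy]
      exact hx
    obtain ⟨h7, h8⟩ := root_deg hirr hyF
    have h9 := minpoly.degree_dvd h7
    rw [h8, h2] at h9
    omega
  obtain ⟨σ, hσ⟩ : ∃ σ : L ≃ₐ[F] L, σ ξ ≠ ξ := by
    by_contra hcon
    push Not at hcon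
    obtain ⟨y, hy⟩ := (IsGalois.mem_bot_iff_fixed ξ).2 hcon
    exact hξF y hy
  have hσ3 : σ ^ 3 = 1 := by
    rw [← hcard]
    exact pow_card_eq_one'
  have hσ3' : σ (σ (σ ξ)) = ξ := by
    have := congrArg (fun f : L ≃ₐ[F] L => f ξ) hσ3
    simpa [pow_succ] using this
  have hgal : ∀ y : L, a * y ^ 3 + 3 * b * y ^ 2 + 3 * c * y + d = 0 →
      a * (σ y) ^ 3 + 3 * b * (σ y) ^ 2 + 3 * c * (σ y) + d = 0 := by
    intro y hy
    have := congrArg σ hy
    simp only [map_add, map_mul, map_pow, map_intCast, map_ofNat, map_zero] at this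
    exact this
  have h01 : ξ ≠ σ ξ := fun h => hσ h.symm
  have h12 : σ ξ ≠ σ (σ ξ) := fun h => h01 (σ.injective h)
  have h20 : σ (σ ξ) ≠ ξ := by
    intro h
    apply h01
    have := congrArg σ h
    rw [hσ3'] at this
    exact this
  obtain ⟨v1, v2⟩ := vieta h01 h12 h20 hx (hgal _ hx) (hgal _ (hgal _ hx))
  have hinv : ∀ y : L, y ≠ 0 → a * y ^ 3 + 3 * b * y ^ 2 + 3 * c * y + d = 0 →
      d * (y⁻¹) ^ 3 + 3 * c * (y⁻¹) ^ 2 + 3 * b * y⁻¹ + a = 0 := by
    intro y hy0 hy
    have : d * (y⁻¹) ^ 3 + 3 * c * (y⁻¹) ^ 2 + 3 * b * y⁻¹ + a =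
        (a * y ^ 3 + 3 * b * y ^ 2 + 3 * c * y + d) * (y⁻¹) ^ 3 := by
      field_simp
      ring
    rw [this, hy, zero_mul]
  have hn1 : σ ξ ≠ 0 := by rwa [Ne, EmbeddingLike.map_eq_zero_iff]
  have hn2 : σ (σ ξ) ≠ 0 := by rwa [Ne, EmbeddingLike.map_eq_zero_iff]
  obtain ⟨w1, w2⟩ := vieta (fun h => h01 (inv_injective h)) (fun h => h12 (inv_injective h))
    (fun h => h20 (inv_injective h)) (hinv _ hξ0 hx) (hinv _ hn1 (hgal _ hx))
    (hinv _ hn2 (hgal _ (hgal _ hx)))
  -- integral elements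
  have hAi : IsIntegral ℤ ((a : L) * ξ) := by
    apply integral_cubic (p := 3 * b) (q := 3 * a * c) (r := a ^ 2 * d)
    push_cast
    linear_combination (a : L) ^ 2 * hx
  have hUi : IsIntegral ℤ ((d : L) * ξ⁻¹) := by
    apply integral_cubic (p := 3 * c) (q := 3 * b * d) (r := a * d ^ 2)
    push_cast
    linear_combination (d : L) ^ 2 * hinv _ hξ0 hx
  set A : 𝓞 L := ⟨(a : L) * ξ, hAi⟩ with hA
  set U : 𝓞 L := ⟨(d : L) * ξ⁻¹, hUi⟩ with hU
  have hAc : ((A : 𝓞 L) : L) = a * ξ := rfl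
  have hUc : ((U : 𝓞 L) : L) = d * ξ⁻¹ := rfl
  have hsm : ∀ y : 𝓞 L, ((σ • y : 𝓞 L) : L) = σ (y : L) := fun y => rfl
  have h3P : (3 : 𝓞 L) ∉ P := by
    intro h
    apply h6
    have : (6 : 𝓞 L) = 2 * 3 := by norm_num
    rw [this]
    exact P.mul_mem_left _ h
  have h2P : (2 : 𝓞 L) ∉ P := by
    intro h
    apply h6
    have : (6 : 𝓞 L) = 3 * 2 := by norm_num
    rw [this]
    exact P.mul_mem_left _ h
  obtain ⟨c1, c2⟩ := cong P hP h3P (x := A) (y := σ • A) (z := σ • σ • A) (b := (b : 𝓞 L))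
    (e := (a : 𝓞 L) * c) (hin σ A) (hin σ (σ • A)) (by
      apply RingOfIntegers.ext
      simp only [map_add, map_neg, map_mul, map_intCast, map_ofNat, hsm, hAc]
      linear_combination v1) (by
      apply RingOfIntegers.ext
      simp only [map_add, map_neg, map_mul, map_intCast, map_ofNat, hsm, hAc]
      linear_combination (a : L) * v2)
  obtain ⟨c3, c4⟩ := cong P hP h3P (x := U) (y := σ • U) (z := σ • σ • U) (b := (c : 𝓞 L))
    (e := (b : 𝓞 L) * d) (hin σ U) (hin σ (σ • U)) (by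
      apply RingOfIntegers.ext
      simp only [map_add, map_neg, map_mul, map_intCast, map_ofNat, map_inv₀, hsm, hUc]
      linear_combination w1) (by
      apply RingOfIntegers.ext
      simp only [map_add, map_neg, map_mul, map_intCast, map_ofNat, map_inv₀, hsm, hUc]
      linear_combination (d : L) * w2)
  have c5 : (b : 𝓞 L) * c - a * d ∈ P := by
    have hAU : A * U = (a : 𝓞 L) * d := by
      apply RingOfIntegers.ext
      simp only [map_mul, map_intCast, hAc, hUc]
      field_simp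
    have : (b : 𝓞 L) * c - a * d = -(A * (U + c)) + c * (A + b) := by
      rw [← hAU]
      ring
    rw [this]
    exact P.add_mem (P.neg_mem (P.mul_mem_left _ c3)) (P.mul_mem_left _ c1)
  -- the prime below
  obtain ⟨p, hp⟩ := IsPrincipalIdealRing.principal (P.under ℤ)
  have hmem : ∀ n : ℤ, (n : 𝓞 L) ∈ P → p ∣ n := by
    intro n hn
    have h7 : n ∈ P.under ℤ := by
      rw [Ideal.mem_comap]
      simpa using hn
    rw [hp] at h7
    exact Ideal.mem_span_singleton.1 h7
  have hpP : (p : 𝓞 L) ∈ P := by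
    have h7 : p ∈ P.under ℤ := by
      rw [hp]
      exact Ideal.mem_span_singleton_self p
    rw [Ideal.mem_comap] at h7
    simpa using h7
  have d1 : p ∣ b ^ 2 - a * c := hmem _ (by push_cast; exact c2)
  have d2 : p ∣ c ^ 2 - b * d := hmem _ (by push_cast; exact c4)
  have d3 : p ∣ b * c - a * d := hmem _ (by push_cast; exact c5)
  have hp0 : p ≠ 0 := by
    rintro rfl
    rw [zero_dvd_iff] at d1 d2 d3
    unfold hM at hM4
    rw [d1, d2, d3] at hM4
    apply hm
    omega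
  have hpp : Prime p := by
    rw [← Ideal.span_singleton_prime hp0]
    have : (P.under ℤ).IsPrime := inferInstance
    rw [hp] at this
    exact this
  have hp2 : ¬ p ∣ 2 := by
    rintro ⟨k, hk⟩
    apply h2P
    have : (2 : 𝓞 L) = k * p := by
      have := congrArg (fun n : ℤ => (n : 𝓞 L)) hk
      push_cast at this
      rw [this, mul_comm]
    rw [this]
    exact P.mul_mem_left _ hpP
  exact int_end hpp hp2 hsf hM4 d1 d2 d3

end Pool.Agent.Leo3.H76
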