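import Pool.Agent.Leo3.Stmts

/-!
# Leo3, module NMF: the quadratic field `ℚ(√(3m))` at 3 (helper76)
-/

set_option autoImplicit false

open Module Polynomial NumberField

namespace Pool.Agent.Leo3.H76

open Pool.Agent.Leo3

/-- `3 m` is not a square in `ℚ_3`. -/
theorem nsq3 {m : ℕ} (hm3 : m % 3 = 1) (t : ℚ_[3]) : t ^ 2 ≠ 3 * (m : ℚ_[3]) := by
  intro h
  have hm : m ≠ 0 := by omega
  have hm0 : (m : ℚ_[3]) ≠ 0 := by exact_mod_cast hm
  have h1 := congrArg Padic.valuation h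
  rw [Padic.valuation_pow, Padic.valuation_mul three_ne_zero hm0, Padic.valuation_natCast,
    padicValNat.eq_zero_of_not_dvd (by omega)] at h1
  have h3 : ((3 : ℚ_[3])).valuation = 1 := by
    have := Padic.valuation_p (p := 3)
    exact_mod_cast this
  rw [h3] at h1
  push_cast at h1
  omega

/-- `-3` is not a square in `ℚ_3`. -/
theorem nsqm3 (t : ℚ_[3]) : t ^ 2 ≠ -3 := by
  intro h
  have h1 := congrArg Padic.valuation h
  have h3 : ((-3 : ℚ_[3])).valuation = 1 := by
    have h4 : (-3 : ℚ_[3]) = ((-3 : ℤ) : ℚ_[3]) := by push_cast; rfl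
    rw [h4, Padic.valuation_intCast, padicValInt]
    have h5 : ((-3 : ℤ)).natAbs = 3 := rfl
    rw [h5, padicValNat_self]
    rfl
  rw [Padic.valuation_pow, h3] at h1
  push_cast at h1
  omega

/-- `m q ^ 2 = -1` is impossible in `ℚ_3` for `m = 1` modulo 3. -/
theorem nunit {m : ℕ} (hm3 : m % 3 = 1) (q : ℚ_[3]) : (m : ℚ_[3]) * q ^ 2 ≠ -1 := by
  intro h
  have hn : ‖(m : ℚ_[3])‖ = 1 := by
    rw [Padic.norm_natCast_eq_one_iff]
    rw [Nat.Prime.coprime_iff_not_dvd Nat.prime_three]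
    omega
  have h1 := congrArg (fun x => ‖x‖) h
  simp only [norm_mul, norm_pow, norm_neg, norm_one, hn, one_mul] at h1
  have h2 : ‖q‖ = 1 := by
    have h3 : 0 ≤ ‖q‖ := norm_nonneg q
    nlinarith
  set z : ℤ_[3] := ⟨q, h2.le⟩ with hz
  have h4 : (m : ℤ_[3]) * z ^ 2 = -1 := by
    apply PadicInt.ext
    push_cast
    exact h
  have h5 := congrArg (PadicInt.toZMod (p := 3)) h4
  rw [map_mul, map_pow, map_natCast, map_neg, map_one] at h5
  have h6 : ((m : ℕ) : ZMod 3) = 1 := by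
    have : ((m : ℕ) : ZMod 3) = ((1 : ℕ) : ZMod 3) := (ZMod.natCast_eq_natCast_iff' m 1 3).2 hm3
    rw [this, Nat.cast_one]
  rw [h6, one_mul] at h5
  revert h5
  generalize PadicInt.toZMod (p := 3) z = w
  revert w
  decide

/-- `3 m` is not a rational square. -/
theorem nsqQ {m : ℕ} (hm3 : m % 3 = 1) (t : ℚ) : t ^ 2 ≠ 3 * (m : ℚ) := by
  intro h
  apply nsq3 hm3 (t : ℚ_[3])
  have := congrArg (fun x : ℚ => (x : ℚ_[3])) h
  push_cast at this
  exact this

/-- `F` is generated by `r`. -/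
theorem adj_top {F : Type} [Field F] [NumberField F] {m : ℕ} {r : F} (h2 : finrank ℚ F = 2)
    (hr : r ^ 2 = 3 * (m : F)) (hm3 : m % 3 = 1) : IntermediateField.adjoin ℚ {r} = ⊤ := by
  have hint : IsIntegral ℚ r := Algebra.IsIntegral.isIntegral r
  have h1 : (minpoly ℚ r).natDegree ∣ 2 := h2 ▸ minpoly.degree_dvd hint
  have h6 : (minpoly ℚ r).natDegree ≠ 1 := by
    intro h7
    obtain ⟨t, ht⟩ := (minpoly.natDegree_eq_one_iff).1 h7
    apply nsqQ hm3 t
    apply (algebraMap ℚ F).injective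
    rw [map_pow, ht, hr]
    simp
  apply IntermediateField.eq_of_le_of_finrank_eq le_top
  rw [IntermediateField.adjoin.finrank hint, IntermediateField.finrank_top', h2]
  rcases (Nat.dvd_prime Nat.prime_two).1 h1 with h | h
  · exact absurd h h6
  · exact h

/-- An automorphism fixing the image of `r` fixes the image of `F`. -/
theorem fix_of {F : Type} [Field F] [NumberField F] {m : ℕ} {r : F} (h2 : finrank ℚ F = 2)
    (hr : r ^ 2 = 3 * (m : F)) (hm3 : m % 3 = 1) (φ : F →+* Om) (ρ : Om ≃ₐ[ℚ_[3]] Om)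
    (h : ρ (φ r) = φ r) : FixF φ ρ := by
  intro x
  have hx : x ∈ IntermediateField.adjoin ℚ {r} := by rw [adj_top h2 hr hm3]; trivial
  induction hx using IntermediateField.adjoin_induction with
  | mem y hy => rw [Set.mem_singleton_iff.1 hy, h]
  | algebraMap q => simp
  | add y z _ _ h1 h2 => rw [map_add, map_add, h1, h2]
  | inv y _ h1 => rw [map_inv₀, map_inv₀, h1]
  | mul y z _ _ h1 h2 => rw [map_mul, map_mul, h1, h2]

/-- Elements of the quadratic extension. -/
theorem quad_elt {R : Om} {e : ℚ_[3]} (hR : R ^ 2 = algebraMap ℚ_[3] Om e) {t : Om}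
    (ht : ∀ ρ : Om ≃ₐ[ℚ_[3]] Om, ρ R = R → ρ t = t) :
    ∃ p q : ℚ_[3], t = algebraMap ℚ_[3] Om p + algebraMap ℚ_[3] Om q * R := by

  have h1 : t ∈ IntermediateField.adjoin ℚ_[3] {R} := by
    rw [← InfiniteGalois.fixedField_fixingSubgroup (IntermediateField.adjoin ℚ_[3] {R}),
      IntermediateField.mem_fixedField_iff]
    intro ρ hρ
    apply ht
    exact (IntermediateField.mem_fixingSubgroup_iff _ _).1 hρ R
      (IntermediateField.mem_adjoin_simple_self _ R)
  rw [← IntermediateField.mem_toSubalgebra,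
    IntermediateField.adjoin_simple_toSubalgebra_of_isAlgebraic (Algebra.IsAlgebraic.isAlgebraic R)] at h1
  clear ht
  induction h1 using Algebra.adjoin_induction with
  | mem y hy => exact ⟨0, 1, by rw [Set.mem_singleton_iff.1 hy]; simp⟩
  | algebraMap q => exact ⟨q, 0, by simp⟩
  | add y z _ _ h1 h2 =>
    obtain ⟨p, q, rfl⟩ := h1
    obtain ⟨p', q', rfl⟩ := h2
    exact ⟨p + p', q + q', by rw [map_add, map_add]; ring⟩
  | mul y z _ _ h1 h2 =>
    obtain ⟨p, q, rfl⟩ := h1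
    obtain ⟨p', q', rfl⟩ := h2
    refine ⟨p * p' + q * q' * e, p * q' + q * p', ?_⟩
    simp only [map_add, map_mul]
    linear_combination (algebraMap ℚ_[3] Om q) * (algebraMap ℚ_[3] Om q') * hR

/-- `NMF`. -/
theorem nmf : NmfStmt := by
  intro F _ _ m r h2 hr hm3
  have hR : ∀ φ : F →+* Om, (φ r) ^ 2 = algebraMap ℚ_[3] Om (3 * (m : ℚ_[3])) := by
    intro φ
    rw [← map_pow, hr]
    simp only [map_mul, map_natCast, map_ofNat]
  have hform : ∀ (φ : F →+* Om) (t : Om), InLoc φ t →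
      ∃ p q : ℚ_[3], t = algebraMap ℚ_[3] Om p + algebraMap ℚ_[3] Om q * φ r := by
    intro φ t ht
    exact quad_elt (hR φ) (fun ρ hρ => ht ρ (fix_of h2 hr hm3 φ ρ hρ))
  refine ⟨?_, hform⟩
  intro φ t ht h3
  by_contra hne
  have hs : 1 + t + t ^ 2 = 0 := by
    have : (t - 1) * (1 + t + t ^ 2) = 0 := by
      linear_combination h3
    exact (mul_eq_zero.1 this).resolve_left (sub_ne_zero.2 hne)
  obtain ⟨p, q, hpq⟩ := hform φ t ht
  have hinj := (algebraMap ℚ_[3] Om).injective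
  have hnR : ∀ x : ℚ_[3], algebraMap ℚ_[3] Om x ≠ φ r := by
    intro x hx
    apply nsq3 hm3 x
    apply hinj
    rw [map_pow, hx, hR]
  set P := 2 * p + 1 with hP
  set Q := 2 * q with hQ
  have h4 : (algebraMap ℚ_[3] Om P + algebraMap ℚ_[3] Om Q * φ r) ^ 2 = -3 := by
    have h5 : algebraMap ℚ_[3] Om P + algebraMap ℚ_[3] Om Q * φ r = 2 * t + 1 := by
      rw [hpq, hP, hQ]
      simp only [map_add, map_mul, map_ofNat, map_one]
      ring
    rw [h5]
    linear_combination 4 * hs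
  have h6 : algebraMap ℚ_[3] Om (P ^ 2 + Q ^ 2 * (3 * m) + 3) +
      algebraMap ℚ_[3] Om (2 * P * Q) * φ r = 0 := by
    have e := hR φ
    have h7 : algebraMap ℚ_[3] Om (P ^ 2 + Q ^ 2 * (3 * m) + 3) =
      (algebraMap ℚ_[3] Om P) ^ 2 + (algebraMap ℚ_[3] Om Q) ^ 2 * (φ r) ^ 2 + 3 := by
      rw [e]
      simp only [map_add, map_mul, map_pow, map_ofNat]
    rw [h7]
    simp only [map_mul, map_ofNat]
    linear_combination h4
  have h8 : P * Q = 0 := by
    by_contra h9
    have h10 : (2 * P * Q : ℚ_[3]) ≠ 0 := by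
      rw [mul_assoc]
      exact mul_ne_zero two_ne_zero h9
    apply hnR (-(P ^ 2 + Q ^ 2 * (3 * m) + 3) / (2 * P * Q))
    rw [map_div₀, map_neg, div_eq_iff (by rwa [Ne, map_eq_zero_iff _ hinj])]
    linear_combination -h6
  rw [mul_assoc, h8, mul_zero, map_zero, zero_mul, add_zero, map_eq_zero_iff _ hinj] at h6
  rcases mul_eq_zero.1 h8 with h9 | h9
  · rw [h9] at h6
    apply nunit hm3 Q
    have : (3 : ℚ_[3]) * (m * Q ^ 2 + 1) = 0 := by linear_combination h6
    have h10 := (mul_eq_zero.1 this).resolve_left three_ne_zero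
    linear_combination h10
  · rw [h9] at h6
    apply nsqm3 P
    linear_combination h6

end Pool.Agent.Leo3.H76
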