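import Pool.Agent.Leo3.Stmts

/-!
# Leo3: cubic polynomials of binary cubic forms (helper76)
-/

set_option autoImplicit false

open Module Polynomial

namespace Pool.Agent.Leo3.H76

open Pool.Agent.Leo3

/-- Discriminant of the quadratic cofactor. -/
theorem disc_id {E : Type} [Field E] (a b c d x : E)
    (hx : a * x ^ 3 + 3 * b * x ^ 2 + 3 * c * x + d = 0) :
    (3 * a * x ^ 2 + 6 * b * x + 3 * c) ^ 2 *
      ((a * x + 3 * b) ^ 2 - 4 * a * (a * x ^ 2 + 3 * b * x + 3 * c)) =
    27 * (4 * (b ^ 2 - a * c) * (c ^ 2 - b * d) - (b * c - a * d) ^ 2) := by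
  have hd : d = -(a * x ^ 3 + 3 * b * x ^ 2 + 3 * c * x) := by linear_combination hx
  rw [hd]
  ring

theorem irr_ne {a b c d : ℤ} (h : Irr a b c d) : a ≠ 0 := by
  intro h0
  have := (h 1 0 (by rw [h0]; ring)).1
  exact absurd this one_ne_zero

/-- The cubic polynomial over a field. -/
noncomputable def gp (E : Type) [Field E] (a b c d : ℤ) : E[X] :=
  C (a : E) * X ^ 3 + C (3 * b : E) * X ^ 2 + C (3 * c : E) * X + C (d : E)

theorem gp_eval {E : Type} [Field E] (a b c d : ℤ) (x : E) :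
    (gp E a b c d).eval x = a * x ^ 3 + 3 * b * x ^ 2 + 3 * c * x + d := by
  unfold gp
  simp

theorem gp_map {E E' : Type} [Field E] [Field E'] (f : E →+* E') (a b c d : ℤ) :
    (gp E a b c d).map f = gp E' a b c d := by
  unfold gp
  rw [Polynomial.map_add, Polynomial.map_add, Polynomial.map_add, Polynomial.map_mul,
    Polynomial.map_mul, Polynomial.map_mul, Polynomial.map_pow, Polynomial.map_pow,
    Polynomial.map_X, Polynomial.map_C, Polynomial.map_C, Polynomial.map_C, Polynomial.map_C,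
    _root_.map_mul f, _root_.map_mul f, map_ofNat f, map_intCast f, map_intCast f, map_intCast f,
    map_intCast f]

theorem gp_deg {E : Type} [Field E] {a b c d : ℤ} (ha : (a : E) ≠ 0) :
    (gp E a b c d).natDegree = 3 := by
  unfold gp
  compute_degree!

theorem gp_lead {E : Type} [Field E] {a b c d : ℤ} (ha : (a : E) ≠ 0) :
    (gp E a b c d).leadingCoeff = a := by
  rw [leadingCoeff, gp_deg ha]
  unfold gp
  rw [coeff_add, coeff_add, coeff_add, coeff_C_mul, coeff_C_mul, coeff_C_mul, coeff_C,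
    coeff_X_pow, coeff_X_pow, coeff_X]
  simp

theorem gp_irr {a b c d : ℤ} (h : Irr a b c d) : Irreducible (gp ℚ a b c d) := by
  have ha : (a : ℚ) ≠ 0 := by exact_mod_cast irr_ne h
  have hd := gp_deg (b := b) (c := c) (d := d) ha
  have h0 : gp ℚ a b c d ≠ 0 := by
    intro h0
    rw [h0] at hd
    simp at hd
  rw [Polynomial.irreducible_iff_roots_eq_zero_of_degree_le_three (by omega) (by omega)]
  rw [Multiset.eq_zero_iff_forall_notMem]
  intro x hx
  rw [Polynomial.mem_roots h0, IsRoot.def, gp_eval] at hx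
  have hden : (x.den : ℚ) ≠ 0 := by exact_mod_cast x.den_nz
  have hxx : x = x.num / x.den := (Rat.num_div_den x).symm
  have h1 : (a : ℚ) * x.num ^ 3 + 3 * b * x.num ^ 2 * x.den + 3 * c * x.num * x.den ^ 2 +
      d * x.den ^ 3 = 0 := by
    have h2 : (a : ℚ) * x.num ^ 3 + 3 * b * x.num ^ 2 * x.den + 3 * c * x.num * x.den ^ 2 +
      d * x.den ^ 3 = (a * (x.num / x.den : ℚ) ^ 3 + 3 * b * (x.num / x.den : ℚ) ^ 2 +
        3 * c * (x.num / x.den : ℚ) + d) * x.den ^ 3 := by
      field_simp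
    rw [h2, ← hxx, hx, zero_mul]
  have h3 : a * x.num ^ 3 + 3 * b * x.num ^ 2 * (x.den : ℤ) + 3 * c * x.num * (x.den : ℤ) ^ 2 +
      d * (x.den : ℤ) ^ 3 = 0 := by exact_mod_cast h1
  have h4 := (h x.num x.den h3).2
  exact x.den_nz (by exact_mod_cast h4)

/-- Degree of a root. -/
theorem root_deg {E : Type} [Field E] [CharZero E] [Algebra ℚ E] {a b c d : ℤ}
    (h : Irr a b c d) {x : E} (hx : a * x ^ 3 + 3 * b * x ^ 2 + 3 * c * x + d = 0) :
    IsIntegral ℚ x ∧ (minpoly ℚ x).natDegree = 3 := by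
  have ha : (a : ℚ) ≠ 0 := by exact_mod_cast irr_ne h
  have h1 : aeval x (gp ℚ a b c d) = 0 := by
    rw [aeval_def, ← eval_map, gp_map, gp_eval, hx]
  have h2 := minpoly.eq_of_irreducible (gp_irr h) h1
  have hint : IsIntegral ℚ x := by
    have : IsAlgebraic ℚ x := ⟨gp ℚ a b c d, (gp_irr h).ne_zero, h1⟩
    exact this.isIntegral
  refine ⟨hint, ?_⟩
  rw [← h2, natDegree_mul_C, gp_deg ha]
  rw [gp_lead ha]
  exact inv_ne_zero ha

/-- `3 m` is not a rational square. -/
theorem nsq {m : ℕ} (h24 : m % 24 = 7) (t : ℚ) : t ^ 2 ≠ 3 * (m : ℚ) := by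
  intro h
  have hm : m ≠ 0 := by omega
  have ht : t ≠ 0 := by
    rintro rfl
    have : (3 * (m : ℚ)) ≠ 0 := by positivity
    exact this (by rw [← h]; ring)
  have : Fact (Nat.Prime 3) := ⟨Nat.prime_three⟩
  have h1 : padicValRat 3 (t ^ 2) = 2 * padicValRat 3 t := by
    rw [padicValRat.pow]
    norm_num
  have h2 : padicValRat 3 (3 * (m : ℚ)) = 1 := by
    rw [padicValRat.mul (by norm_num) (by exact_mod_cast hm)]
    have h3 : padicValRat 3 (3 : ℚ) = 1 := by
      have := padicValRat.self (p := 3) (by norm_num)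
      exact_mod_cast this
    have h4 : padicValRat 3 (m : ℚ) = 0 := by
      rw [padicValRat.of_nat, padicValNat.eq_zero_of_not_dvd (by omega)]
      rfl
    rw [h3, h4]
    rfl
  rw [h, h2] at h1
  omega

/-- An element of a cubic field whose square is rational is rational. -/
theorem sq_cubic {K : Type} [Field K] [NumberField K] (h3 : finrank ℚ K = 3) {q : ℚ} {s : K}
    (hs : s ^ 2 = (q : K)) : ∃ t : ℚ, t ^ 2 = q := by
  have hint : IsIntegral ℚ s := Algebra.IsIntegral.isIntegral s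
  have h1 : (minpoly ℚ s).natDegree ∣ 3 := h3 ▸ minpoly.degree_dvd hint
  have h2 : minpoly ℚ s ∣ X ^ 2 - C q := by
    apply minpoly.dvd
    simp [hs]
  have h4 : (minpoly ℚ s).natDegree ≤ 2 := by
    have h5 : (X ^ 2 - C q : ℚ[X]).natDegree = 2 := natDegree_X_pow_sub_C
    rw [← h5]
    apply natDegree_le_of_dvd h2
    intro h6
    rw [h6] at h5
    simp at h5
  have h6 : (minpoly ℚ s).natDegree = 1 := by
    rcases (Nat.dvd_prime Nat.prime_three).1 h1 with h | h
    · exact h
    · omega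
  obtain ⟨t, ht⟩ := (minpoly.natDegree_eq_one_iff).1 h6
  refine ⟨t, ?_⟩
  have h7 : (algebraMap ℚ K) (t ^ 2) = algebraMap ℚ K q := by
    rw [map_pow, ht, hs]
    simp
  exact (algebraMap ℚ K).injective h7

end Pool.Agent.Leo3.H76
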